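import Pool.Agent.Helper75.CG.Defs2

/-!
# Project CH, module CH-I: counting structures by symmetry
-/

set_option autoImplicit false

namespace Pool.Agent.Helper75.CG

open scoped Classical
open Finset
open Pool.Agent.Helper65.CliqueGame

namespace Setup

variable {V Δ : Type} [Fintype V] [Fintype Δ] (X : Setup V Δ)

namespace H8

theorem bs_pos (j : ℕ) : 1 ≤ X.bs j := by
  unfold bs
  split_ifs
  · have := X.hm
    omega
  · exact le_rfl

theorem bs_le (δ : Δ) : X.bs (X.gen δ) ≤ 2 ^ X.z (X.gen δ) := by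
  unfold bs
  split_ifs with h
  · exact X.hz _ h
  · exact Nat.one_le_two_pow

theorem adm_map {σ : V ≃ V} {τ : Δ ≃ Δ} (h : ∀ v, X.dis (σ v) = τ (X.dis v))
    (hg : ∀ δ, X.gen (τ δ) = X.gen δ) {A : Finset V} (hA : X.Adm A) :
    X.Adm (A.map σ.toEmbedding) := by
  constructor
  · intro δ
    obtain ⟨δ', rfl⟩ := τ.surjective δ
    have e : X.part (A.map σ.toEmbedding) (τ δ') = (X.part A δ').map σ.toEmbedding := by
      unfold part
      ext v
      simp only [mem_filter, mem_map, Equiv.coe_toEmbedding]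
      constructor
      · rintro ⟨⟨w, hw, rfl⟩, h2⟩
        rw [h] at h2
        exact ⟨w, ⟨hw, τ.injective h2⟩, rfl⟩
      · rintro ⟨w, ⟨hw, h2⟩, rfl⟩
        exact ⟨⟨w, hw, rfl⟩, by rw [h, h2]⟩
    rw [e, card_map, hg]
    exact hA.1 δ'
  · intro j hj
    have e : ((A.map σ.toEmbedding).image X.dis).filter (fun δ => X.gen δ = j) =
        ((A.image X.dis).filter (fun δ => X.gen δ = j)).map τ.toEmbedding := by
      ext δ
      simp only [mem_filter, mem_image, mem_map, Equiv.coe_toEmbedding]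
      constructor
      · rintro ⟨⟨_, ⟨w, hw, rfl⟩, rfl⟩, h2⟩
        rw [h] at h2 ⊢
        rw [hg] at h2
        exact ⟨X.dis w, ⟨⟨w, hw, rfl⟩, h2⟩, rfl⟩
      · rintro ⟨δ', ⟨⟨w, hw, rfl⟩, h2⟩, rfl⟩
        exact ⟨⟨σ w, ⟨w, hw, rfl⟩, h w⟩, by rw [hg]; exact h2⟩
    rw [e, card_map]
    exact hA.2 j hj

theorem cnt_map_le {σ : V ≃ V} {τ : Δ ≃ Δ} (h : ∀ v, X.dis (σ v) = τ (X.dis v))
    (hg : ∀ δ, X.gen (τ δ) = X.gen δ) (S : Finset V) :
    X.cnt S ≤ X.cnt (S.map σ.toEmbedding) := by
  unfold cnt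
  refine card_le_card_of_injOn (fun A => A.map σ.toEmbedding) ?_ ?_
  · intro A hA
    simp only [coe_filter, mem_univ, true_and, Set.mem_ofPred_eq] at hA ⊢
    exact ⟨adm_map X h hg hA.1, map_subset_map.2 hA.2⟩
  · intro A _ B _ hAB
    exact map_injective _ hAB

/-- double counting -/
theorem double (S O : Finset V) (hO : Disjoint O S) (N t : ℕ)
    (hN : ∀ x' ∈ O, X.cnt (insert x' S) = N)
    (ht : ∀ A, X.Adm A → S ⊆ A → (A ∩ O).card = t) :
    O.card * N = t * X.cnt S := by
  have h1 : ∑ x' ∈ O, X.cnt (insert x' S) = O.card * N := by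
    rw [sum_congr rfl hN, sum_const, smul_eq_mul]
  have h2 : ∑ x' ∈ O, X.cnt (insert x' S) =
      ∑ x' ∈ O, ∑ A ∈ univ.filter (fun A => X.Adm A ∧ S ⊆ A), if x' ∈ A then 1 else 0 := by
    refine sum_congr rfl fun x' _ => ?_
    unfold cnt
    rw [card_eq_sum_ones, sum_filter, sum_filter]
    refine sum_congr rfl fun A _ => ?_
    by_cases ha : X.Adm A <;> by_cases hs : S ⊆ A <;> by_cases hx : x' ∈ A <;>
      simp [insert_subset_iff, ha, hs, hx]
  rw [← h1, h2, sum_comm]
  have h3 : ∀ A ∈ univ.filter (fun A => X.Adm A ∧ S ⊆ A),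
      (∑ x' ∈ O, if x' ∈ A then 1 else 0) = t := by
    intro A hA
    simp only [mem_filter, mem_univ, true_and] at hA
    rw [← ht A hA.1 hA.2, ← sum_filter, ← card_eq_sum_ones]
    congr 1
    ext v
    simp only [mem_filter, mem_inter]
    tauto
  rw [sum_congr rfl h3, sum_const, smul_eq_mul, mul_comm]
  rfl

/-- the exchange of two points of one district -/
theorem cnt_swap {S : Finset V} {x x' : V} (hd : X.dis x = X.dis x') (hx : x ∉ S)
    (hx' : x' ∉ S) : X.cnt (insert x S) ≤ X.cnt (insert x' S) := by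
  have h : ∀ v, X.dis (Equiv.swap x x' v) = (Equiv.refl Δ) (X.dis v) := by
    intro v
    rw [Equiv.refl_apply]
    by_cases h1 : v = x
    · rw [h1, Equiv.swap_apply_left, hd]
    · by_cases h2 : v = x'
      · rw [h2, Equiv.swap_apply_right, hd]
      · rw [Equiv.swap_apply_of_ne_of_ne h1 h2]
  refine (cnt_map_le X h (fun _ => rfl) (insert x S)).trans (le_of_eq ?_)
  congr 1
  rw [map_insert]
  congr 1
  · simp
  · ext v
    simp only [mem_map, Equiv.coe_toEmbedding]
    constructor
    · rintro ⟨w, hw, rfl⟩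
      have a1 : w ≠ x := by rintro rfl; exact hx hw
      have a2 : w ≠ x' := by rintro rfl; exact hx' hw
      rw [Equiv.swap_apply_of_ne_of_ne a1 a2]
      exact hw
    · intro hv
      have a1 : v ≠ x := by rintro rfl; exact hx hv
      have a2 : v ≠ x' := by rintro rfl; exact hx' hv
      exact ⟨v, hv, Equiv.swap_apply_of_ne_of_ne a1 a2⟩

/-- the exchange of two districts -/
theorem cnt_exch {S : Finset V} {x x' : V} (hg : X.gen (X.dis x) = X.gen (X.dis x'))
    (hne : X.dis x ≠ X.dis x') (hx : ∀ v ∈ S, X.dis v ≠ X.dis x)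
    (hx' : ∀ v ∈ S, X.dis v ≠ X.dis x') : X.cnt (insert x S) ≤ X.cnt (insert x' S) := by
  set δ := X.dis x with hδ
  set δ' := X.dis x' with hδ'
  have hcard : Fintype.card {v // X.dis v = δ} = Fintype.card {v // X.dis v = δ'} := by
    rw [Fintype.card_subtype, Fintype.card_subtype, X.card_dis, X.card_dis, hg]
  set e0 := Fintype.equivOfCardEq hcard with he0
  set e : {v // X.dis v = δ} ≃ {v // X.dis v = δ'} :=
    e0.trans (Equiv.swap (e0 ⟨x, rfl⟩) ⟨x', rfl⟩) with he
  have hex : e ⟨x, rfl⟩ = ⟨x', rfl⟩ := by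
    rw [he, Equiv.trans_apply, Equiv.swap_apply_left]
  set f : V → V := fun v => if h : X.dis v = δ then (e ⟨v, h⟩).1 else
    if h' : X.dis v = δ' then (e.symm ⟨v, h'⟩).1 else v with hf
  have f1 : ∀ v (h : X.dis v = δ), f v = (e ⟨v, h⟩).1 := fun v h => dif_pos h
  have f2 : ∀ v (h : X.dis v = δ'), f v = (e.symm ⟨v, h⟩).1 := by
    intro v h
    have h1 : ¬ X.dis v = δ := by
      rw [h]
      exact hne.symm
    rw [hf]
    simp only
    rw [dif_neg h1, dif_pos h]
  have f3 : ∀ v, X.dis v ≠ δ → X.dis v ≠ δ' → f v = v := by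
    intro v h1 h2
    rw [hf]
    simp only
    rw [dif_neg h1, dif_neg h2]
  have hinv : Function.Involutive f := by
    intro v
    by_cases h : X.dis v = δ
    · rw [f1 v h, f2 _ (e ⟨v, h⟩).2]
      simp
    · by_cases h' : X.dis v = δ'
      · rw [f2 v h', f1 _ (e.symm ⟨v, h'⟩).2]
        simp
      · rw [f3 v h h', f3 v h h']
  have h : ∀ v, X.dis (hinv.toPerm f v) = (Equiv.swap δ δ') (X.dis v) := by
    intro v
    show X.dis (f v) = _
    by_cases h : X.dis v = δ
    · rw [f1 v h, (e ⟨v, h⟩).2, h, Equiv.swap_apply_left]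
    · by_cases h' : X.dis v = δ'
      · rw [f2 v h', (e.symm ⟨v, h'⟩).2, h', Equiv.swap_apply_right]
      · rw [f3 v h h', Equiv.swap_apply_of_ne_of_ne h h']
  have hgen : ∀ d, X.gen (Equiv.swap δ δ' d) = X.gen d := by
    intro d
    by_cases h1 : d = δ
    · rw [h1, Equiv.swap_apply_left, hg]
    · by_cases h2 : d = δ'
      · rw [h2, Equiv.swap_apply_right, hg]
      · rw [Equiv.swap_apply_of_ne_of_ne h1 h2]
  refine (cnt_map_le X h hgen (insert x S)).trans (le_of_eq ?_)
  congr 1
  rw [map_insert]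
  congr 1
  · show f x = x'
    rw [f1 x rfl, hex]
  · ext v
    simp only [mem_map, Equiv.coe_toEmbedding]
    constructor
    · rintro ⟨w, hw, rfl⟩
      show f w ∈ S
      rw [f3 w (hx w hw) (hx' w hw)]
      exact hw
    · intro hv
      exact ⟨v, hv, f3 v (hx v hv) (hx' v hv)⟩

theorem cnt_anti {S T : Finset V} (h : S ⊆ T) : X.cnt T ≤ X.cnt S := by
  unfold cnt
  apply card_le_card
  intro A hA
  simp only [mem_filter, mem_univ, true_and] at hA ⊢
  exact ⟨hA.1, h.trans hA.2⟩

theorem part_card {A : Finset V} (hA : X.Adm A) {δ : Δ} (h : δ ∈ A.image X.dis) :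
    (X.part A δ).card = X.bs (X.gen δ) := by
  rcases hA.1 δ with h0 | h0
  · obtain ⟨v, hv, hvd⟩ := mem_image.1 h
    rw [card_eq_zero] at h0
    have : v ∈ X.part A δ := by
      unfold part
      exact mem_filter.2 ⟨hv, hvd⟩
    rw [h0] at this
    simp at this
  · exact h0

/-- a touched district -/
theorem step1 {S : Finset V} {x : V} (hx : x ∉ S) (hd : X.dis x ∈ S.image X.dis) :
    (X.cnt (insert x S) : ℝ) ≤ (X.bs (X.gv x) : ℝ) / 2 ^ (X.z (X.gv x)) * X.cnt S := by
  set δ := X.dis x with hδ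
  have hgv : X.gv x = X.gen δ := rfl
  rw [hgv]
  have h1 := double X S (X.dset δ \ S) sdiff_disjoint (X.cnt (insert x S))
    (X.bs (X.gen δ) - (X.part S δ).card) (by
      intro x' hx'
      rw [mem_sdiff] at hx'
      have h2 : X.dis x' = δ := by
        have := hx'.1
        unfold dset at this
        exact (mem_filter.1 this).2
      exact le_antisymm (cnt_swap X h2 hx'.2 hx) (cnt_swap X h2.symm hx hx'.2)) (by
      intro A hA hSA
      have h3 : A ∩ (X.dset δ \ S) = X.part A δ \ X.part S δ := by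
        unfold dset part
        ext v
        simp only [mem_inter, mem_sdiff, mem_filter, mem_univ, true_and, not_and]
        tauto
      have h4 : X.part S δ ⊆ X.part A δ := by
        unfold part
        exact filter_subset_filter _ hSA
      rw [h3, card_sdiff_of_subset h4, part_card X hA (image_subset_image hSA hd)])
  have h2 : (X.dset δ \ S).card = 2 ^ X.z (X.gen δ) - (X.part S δ).card := by
    have h3 : X.dset δ \ S = X.dset δ \ X.part S δ := by
      unfold dset part
      ext v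
      simp only [mem_sdiff, mem_filter, mem_univ, true_and, not_and]
      tauto
    have h4 : X.part S δ ⊆ X.dset δ := by
      unfold dset part
      intro v hv
      exact mem_filter.2 ⟨mem_univ _, (mem_filter.1 hv).2⟩
    rw [h3, card_sdiff_of_subset h4]
    congr 1
    exact X.card_dis δ
  have hpos : 0 < (X.dset δ \ S).card := by
    refine card_pos.2 ⟨x, mem_sdiff.2 ⟨?_, hx⟩⟩
    unfold dset
    exact mem_filter.2 ⟨mem_univ _, rfl⟩
  rw [h2] at h1 hpos
  set r := (X.part S δ).card with hr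
  set b := X.bs (X.gen δ) with hb
  set Z := 2 ^ X.z (X.gen δ) with hZ
  have hbZ : b ≤ Z := bs_le X δ
  rcases Nat.lt_or_ge b r with hbr | hbr
  · have h3 : b - r = 0 := by omega
    rw [h3, zero_mul] at h1
    have h4 : X.cnt (insert x S) = 0 := by
      rcases Nat.mul_eq_zero.1 h1 with h5 | h5
      · omega
      · exact h5
    rw [h4]
    have : (0 : ℝ) ≤ (b : ℝ) / 2 ^ (X.z (X.gen δ)) * X.cnt S := by positivity
    simpa using this
  · have h3 : ((Z : ℝ) - r) * X.cnt (insert x S) = ((b : ℝ) - r) * X.cnt S := by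
      have h4 : ((Z - r : ℕ) : ℝ) * X.cnt (insert x S) = ((b - r : ℕ) : ℝ) * X.cnt S := by
        exact_mod_cast h1
      rwa [Nat.cast_sub (by omega), Nat.cast_sub hbr] at h4
    have hZ' : (Z : ℝ) = 2 ^ (X.z (X.gen δ)) := by
      rw [hZ]
      push_cast
      rfl
    rw [← hZ']
    have hZr : (0 : ℝ) < (Z : ℝ) - r := by
      have : (r : ℝ) < Z := by exact_mod_cast (by omega : r < Z)
      linarith
    have hZ0 : (0 : ℝ) < Z := by
      have : (0 : ℝ) ≤ r := Nat.cast_nonneg _
      linarith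
    rw [div_mul_eq_mul_div, le_div_iff₀ hZ0]
    have hbZ' : (b : ℝ) ≤ Z := by exact_mod_cast hbZ
    have hc0 : (0 : ℝ) ≤ X.cnt S := Nat.cast_nonneg _
    have hr0 : (0 : ℝ) ≤ r := Nat.cast_nonneg _
    have key : ((Z : ℝ) - r) * (b * X.cnt S - X.cnt (insert x S) * Z) =
        r * (Z - b) * X.cnt S := by
      linear_combination (-(Z : ℝ)) * h3
    have h5 : 0 ≤ (r : ℝ) * (Z - b) * X.cnt S :=
      mul_nonneg (mul_nonneg hr0 (by linarith)) hc0
    rw [← key] at h5
    have h6 := (mul_nonneg_iff_of_pos_left hZr).1 h5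
    linarith

/-- an untouched district -/
theorem step2 {S : Finset V} {x : V} (hd : X.dis x ∉ S.image X.dis) :
    (X.cnt (insert x S) : ℝ) ≤ (X.bs (X.gv x) : ℝ) / 2 ^ (X.z (X.gv x)) *
      ((X.k (X.gv x) : ℝ) / 2 ^ (X.y (X.gv x))) * X.cnt S := by
  set δ := X.dis x with hδ
  have hgv : X.gv x = X.gen δ := rfl
  rw [hgv]
  set j := X.gen δ with hj
  have hjR : j ≤ X.R := X.gen_le δ
  set O : Finset V := univ.filter (fun v => X.gen (X.dis v) = j ∧ X.dis v ∉ S.image X.dis) with hO
  have hOS : Disjoint O S := by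
    rw [disjoint_left]
    intro v hv hvS
    rw [hO, mem_filter] at hv
    exact hv.2.2 (mem_image_of_mem _ hvS)
  have hns : ∀ v, X.dis v ∉ S.image X.dis → ∀ w ∈ S, X.dis w ≠ X.dis v := by
    intro v hv w hw he
    exact hv (he ▸ mem_image_of_mem _ hw)
  have hnS : ∀ v, X.dis v ∉ S.image X.dis → v ∉ S := fun v hv hvS =>
    hv (mem_image_of_mem _ hvS)
  have hcntle : ∀ v w, X.gen (X.dis v) = X.gen (X.dis w) → X.dis v ∉ S.image X.dis →
      X.dis w ∉ S.image X.dis → X.cnt (insert v S) ≤ X.cnt (insert w S) := by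
    intro v w hg hv hw
    by_cases he : X.dis v = X.dis w
    · exact cnt_swap X he (hnS v hv) (hnS w hw)
    · exact cnt_exch X hg he (hns v hv) (hns w hw)
  rcases Nat.eq_zero_or_pos (X.cnt S) with hc0 | hc0
  · have h1 : X.cnt (insert x S) = 0 := by
      have := cnt_anti X (subset_insert x S)
      omega
    rw [h1, hc0]
    simp
  obtain ⟨A0, hA0⟩ := card_pos.1 hc0
  simp only [mem_filter, mem_univ, true_and] at hA0
  set a := X.aa j S with ha
  have haD : ∀ A, X.Adm A → S ⊆ A →
      ((A.image X.dis).filter (fun δ => X.gen δ = j) \ S.image X.dis).card = X.k j - a := by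
    intro A hA hSA
    have h2 : (A.image X.dis).filter (fun δ => X.gen δ = j) \ S.image X.dis =
        (A.image X.dis).filter (fun δ => X.gen δ = j) \
          (S.image X.dis).filter (fun δ => X.gen δ = j) := by
      ext d
      simp only [mem_sdiff, mem_filter, not_and]
      tauto
    rw [h2, card_sdiff_of_subset (filter_subset_filter _ (image_subset_image hSA)), hA.2 j hjR]
    rfl
  have hak : a ≤ X.k j := by
    have h2 : (S.image X.dis).filter (fun δ => X.gen δ = j) ⊆
        (A0.image X.dis).filter (fun δ => X.gen δ = j) :=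
      filter_subset_filter _ (image_subset_image hA0.2)
    have h3 := card_le_card h2
    rw [hA0.1.2 j hjR] at h3
    exact h3
  have h1 := double X S O hOS (X.cnt (insert x S)) ((X.k j - a) * X.bs j) (by
      intro x' hx'
      rw [hO, mem_filter] at hx'
      exact le_antisymm (hcntle _ _ hx'.2.1 hx'.2.2 hd) (hcntle _ _ hx'.2.1.symm hd hx'.2.2)) (by
      intro A hA hSA
      have hmaps : ∀ v ∈ A ∩ O, X.dis v ∈
          (A.image X.dis).filter (fun δ => X.gen δ = j) \ S.image X.dis := by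
        intro v hv
        rw [mem_inter, hO, mem_filter] at hv
        rw [mem_sdiff, mem_filter]
        exact ⟨⟨mem_image_of_mem _ hv.1, hv.2.2.1⟩, hv.2.2.2⟩
      rw [card_eq_sum_card_fiberwise hmaps]
      have h2 : ∀ d ∈ (A.image X.dis).filter (fun δ => X.gen δ = j) \ S.image X.dis,
          ((A ∩ O).filter (fun v => X.dis v = d)).card = X.bs j := by
        intro d hd'
        rw [mem_sdiff, mem_filter] at hd'
        have h3 : (A ∩ O).filter (fun v => X.dis v = d) = X.part A d := by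
          unfold part
          ext v
          rw [mem_filter, mem_inter, hO, mem_filter, mem_filter]
          constructor
          · rintro ⟨⟨h4, -⟩, h5⟩
            exact ⟨h4, h5⟩
          · rintro ⟨h4, h5⟩
            refine ⟨⟨h4, mem_univ _, ?_, ?_⟩, h5⟩
            · rw [h5]; exact hd'.1.2
            · rw [h5]; exact hd'.2
        rw [h3, part_card X hA hd'.1.1, hd'.1.2]
      rw [sum_congr rfl h2, sum_const, smul_eq_mul, haD A hA hSA])
  have h2 : O.card = (2 ^ X.y j - a) * 2 ^ X.z j := by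
    have hmaps : ∀ v ∈ O, X.dis v ∈ univ.filter (fun δ => X.gen δ = j) \ S.image X.dis := by
      intro v hv
      rw [hO, mem_filter] at hv
      rw [mem_sdiff, mem_filter]
      exact ⟨⟨mem_univ _, hv.2.1⟩, hv.2.2⟩
    rw [card_eq_sum_card_fiberwise hmaps]
    have h3 : ∀ d ∈ univ.filter (fun δ => X.gen δ = j) \ S.image X.dis,
        (O.filter (fun v => X.dis v = d)).card = 2 ^ X.z j := by
      intro d hd'
      rw [mem_sdiff, mem_filter] at hd'
      have h4 : O.filter (fun v => X.dis v = d) = univ.filter (fun v => X.dis v = d) := by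
        ext v
        rw [mem_filter, hO, mem_filter, mem_filter]
        constructor
        · rintro ⟨-, h5⟩
          exact ⟨mem_univ _, h5⟩
        · rintro ⟨-, h5⟩
          refine ⟨⟨mem_univ _, ?_, ?_⟩, h5⟩
          · rw [h5]; exact hd'.1.2
          · rw [h5]; exact hd'.2
      rw [h4, X.card_dis, hd'.1.2]
    rw [sum_congr rfl h3, sum_const, smul_eq_mul]
    congr 1
    have h5 : univ.filter (fun δ => X.gen δ = j) \ S.image X.dis =
        univ.filter (fun δ => X.gen δ = j) \ (S.image X.dis).filter (fun δ => X.gen δ = j) := by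
      ext d
      simp only [mem_sdiff, mem_filter, mem_univ, true_and, not_and]
      tauto
    rw [h5, card_sdiff_of_subset (fun d hd' => by
      rw [mem_filter] at hd' ⊢
      exact ⟨mem_univ _, hd'.2⟩), X.card_gen j hjR]
    rfl
  have hpos : 0 < O.card := by
    refine card_pos.2 ⟨x, ?_⟩
    rw [hO, mem_filter]
    exact ⟨mem_univ _, rfl, hd⟩
  rw [h2] at h1 hpos
  have hky := X.hk j hjR
  set Y := 2 ^ X.y j with hY
  set Z := 2 ^ X.z j with hZ
  have haY : a < Y := by
    by_contra hcon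
    have : Y - a = 0 := by omega
    rw [this, zero_mul] at hpos
    omega
  have h3 : ((Y : ℝ) - a) * Z * X.cnt (insert x S) = ((X.k j : ℝ) - a) * X.bs j * X.cnt S := by
    have h4 : ((Y - a : ℕ) : ℝ) * Z * X.cnt (insert x S) =
        ((X.k j - a : ℕ) : ℝ) * X.bs j * X.cnt S := by
      exact_mod_cast h1
    rwa [Nat.cast_sub haY.le, Nat.cast_sub hak] at h4
  have hZ' : (Z : ℝ) = 2 ^ (X.z j) := by
    rw [hZ]
    push_cast
    rfl
  have hY' : (Y : ℝ) = 2 ^ (X.y j) := by
    rw [hY]
    push_cast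
    rfl
  rw [← hZ', ← hY']
  have hYa : (0 : ℝ) < (Y : ℝ) - a := by
    have : (a : ℝ) < Y := by exact_mod_cast haY
    linarith
  have ha0 : (0 : ℝ) ≤ a := Nat.cast_nonneg _
  have hY0 : (0 : ℝ) < Y := by linarith
  have hZ0 : (0 : ℝ) < Z := by
    rw [hZ']
    positivity
  have hkY : (X.k j : ℝ) ≤ Y := by exact_mod_cast hky
  have hc : (0 : ℝ) ≤ X.cnt S := Nat.cast_nonneg _
  have hb0 : (0 : ℝ) ≤ X.bs j := Nat.cast_nonneg _
  have e1 : (X.bs j : ℝ) / Z * ((X.k j : ℝ) / Y) * X.cnt S =
      (X.bs j * X.k j * X.cnt S) / (Z * Y) := by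
    field_simp
  rw [e1, le_div_iff₀ (mul_pos hZ0 hY0)]
  have key : ((Y : ℝ) - a) * (X.bs j * X.k j * X.cnt S - X.cnt (insert x S) * (Z * Y)) =
      a * (Y - X.k j) * X.bs j * X.cnt S := by
    linear_combination (-(Y : ℝ)) * h3
  have h5 : 0 ≤ (a : ℝ) * (Y - X.k j) * X.bs j * X.cnt S :=
    mul_nonneg (mul_nonneg (mul_nonneg ha0 (by linarith)) hb0) hc
  rw [← key] at h5
  have h6 := (mul_nonneg_iff_of_pos_left hYa).1 h5
  linarith

end H8

theorem cnt_le (S : Finset V) : (X.cnt S : ℝ) ≤ X.cnt ∅ *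
    (∏ x ∈ S, (X.bs (X.gv x) : ℝ) / 2 ^ (X.z (X.gv x))) *
    ∏ δ ∈ S.image X.dis, (X.k (X.gen δ) : ℝ) / 2 ^ (X.y (X.gen δ)) := by
  induction S using Finset.induction_on with
  | empty => simp
  | insert x S hx ih =>
    rw [prod_insert hx, image_insert]
    by_cases hd : X.dis x ∈ S.image X.dis
    · rw [insert_eq_of_mem hd]
      refine (H8.step1 X hx hd).trans ?_
      have h0 : (0 : ℝ) ≤ (X.bs (X.gv x) : ℝ) / 2 ^ (X.z (X.gv x)) := by positivity
      refine (mul_le_mul_of_nonneg_left ih h0).trans (le_of_eq ?_)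
      ring
    · rw [prod_insert hd]
      refine (H8.step2 X hd).trans ?_
      have h0 : (0 : ℝ) ≤ (X.bs (X.gv x) : ℝ) / 2 ^ (X.z (X.gv x)) *
        ((X.k (X.gv x) : ℝ) / 2 ^ (X.y (X.gv x))) := by positivity
      refine (mul_le_mul_of_nonneg_left ih h0).trans (le_of_eq ?_)
      unfold gv
      ring

theorem exists_adm : 0 < X.cnt ∅ := by
  have hE : ∀ j, ∃ E : Finset Δ, (∀ δ ∈ E, X.gen δ = j) ∧ (j ≤ X.R → E.card = X.k j) := by
    intro j
    by_cases hj : j ≤ X.R
    · have h1 : X.k j ≤ (univ.filter (fun δ => X.gen δ = j)).card := by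
        rw [X.card_gen j hj]
        exact X.hk j hj
      obtain ⟨E, hE1, hE2⟩ := exists_subset_card_eq h1
      exact ⟨E, fun δ hδ => (mem_filter.1 (hE1 hδ)).2, fun _ => hE2⟩
    · exact ⟨∅, by simp, fun h => (hj h).elim⟩
  choose E hE1 hE2 using hE
  have hB : ∀ δ, ∃ B : Finset V, (∀ v ∈ B, X.dis v = δ) ∧ B.card = X.bs (X.gen δ) := by
    intro δ
    have h1 : X.bs (X.gen δ) ≤ (univ.filter (fun v => X.dis v = δ)).card := by
      rw [X.card_dis]
      exact H8.bs_le X δ
    obtain ⟨B, hB1, hB2⟩ := exists_subset_card_eq h1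
    exact ⟨B, fun v hv => (mem_filter.1 (hB1 hv)).2, hB2⟩
  choose B hB1 hB2 using hB
  set A : Finset V := univ.filter (fun v => X.dis v ∈ E (X.gen (X.dis v)) ∧ v ∈ B (X.dis v))
    with hA
  have hpart : ∀ δ, δ ∈ E (X.gen δ) → X.part A δ = B δ := by
    intro δ hδ
    unfold part
    ext v
    rw [mem_filter, hA, mem_filter]
    constructor
    · rintro ⟨⟨-, -, h1⟩, h2⟩
      rwa [h2] at h1
    · intro h1
      have h2 := hB1 δ v h1
      refine ⟨⟨mem_univ _, ?_, ?_⟩, h2⟩
      · rw [h2]; exact hδ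
      · rw [h2]; exact h1
  have hpart' : ∀ δ, δ ∉ E (X.gen δ) → X.part A δ = ∅ := by
    intro δ hδ
    unfold part
    rw [filter_eq_empty_iff]
    intro v hv h2
    rw [hA, mem_filter] at hv
    rw [h2] at hv
    exact hδ hv.2.1
  have hAdm : X.Adm A := by
    constructor
    · intro δ
      by_cases hδ : δ ∈ E (X.gen δ)
      · right
        rw [hpart δ hδ, hB2]
      · left
        rw [hpart' δ hδ, card_empty]
    · intro j hj
      rw [← hE2 j hj]
      congr 1
      ext δ
      rw [mem_filter, mem_image]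
      constructor
      · rintro ⟨⟨v, hv, rfl⟩, h2⟩
        rw [hA, mem_filter] at hv
        rw [← h2]
        exact hv.2.1
      · intro hδ
        have h2 := hE1 j δ hδ
        have h3 : 0 < (B δ).card := by
          rw [hB2]
          exact H8.bs_pos X _
        obtain ⟨v, hv⟩ := card_pos.1 h3
        have h4 := hB1 δ v hv
        refine ⟨⟨v, ?_, h4⟩, h2⟩
        rw [hA, mem_filter]
        refine ⟨mem_univ _, ?_, ?_⟩
        · rw [h4, h2]; exact hδ
        · rw [h4]; exact hv
  unfold cnt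
  exact card_pos.2 ⟨A, mem_filter.2 ⟨mem_univ _, hAdm, empty_subset _⟩⟩

end Setup

end Pool.Agent.Helper75.CG
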